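import Pool.Agent.R294.Brat4

/-! # Every generalized Bratteli diagram admits an order generating a Borel Vershik map

The definitions (`Diagram`, `Path`, `Ord`, `IsMax`, `IsMin`, `IsSucc`, `IsVershik`) are in
`Pool/Agent/R294/Brat2.lean`. The proof idea is due to helper280. -/

namespace Pool.Agent.Results.MP_f8f5a4_an.BorelVershik

open Pool.Agent.R294.Brat

/-- Every generalized Bratteli diagram `B` (vertices with levels in `ℕ`, every level countably
infinite, countably many edges, each from a vertex of some level to a vertex of the next level,
every vertex the source of an edge, every vertex not on level `0` the range of at least one and of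
only finitely many edges) admits an order `o` (a linear order on every `r⁻¹(v)`) and a Borel
automorphism `φ` of its path space such that for every path `x` which is not maximal, `φ x` is the
image of `x` under the Vershik map of `o`. -/
theorem result (B : Diagram) : ∃ (o : Ord B) (φ : Path B ≃ᵐ Path B), ∀ x : Path B,
    (¬ ∀ n, IsMax o (x.1 n)) → IsVershik o x.1 (φ x).1 :=
  main B

end Pool.Agent.Results.MP_f8f5a4_an.BorelVershik
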